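import Mathlib
import Pool.Agent.H7.Cops

/-! A connected bipartite graph whose fully active cop number is smaller than its cop number. -/

namespace Pool.Agent.Results.MP_1e2692_co.Counter

open Pool.Agent.H7.Cops

/-- A legal move from `x` to `y`: along an edge, or staying put in the passive game. -/
def Move {V : Type} (G : SimpleGraph V) (passive : Bool) (x y : V) : Prop :=
  G.Adj x y ∨ (passive = true ∧ x = y)

/-- The robber's first `t` positions, most recent first. -/
def hist {V : Type} (ρ : ℕ → V) : ℕ → List V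
  | 0 => []
  | t + 1 => ρ t :: hist ρ t

/-- `k` cops have a winning strategy. A strategy `σ` gives the positions of the cops as a function
of the robber's positions so far (`σ []` is the initial placement), each cop making a legal move
on each turn. It wins if against every legal sequence `ρ 0, ρ 1, ...` of robber positions some cop
is at some time on the robber's vertex, either when the robber arrives at `ρ t` or after the cops'
answer to `ρ t`. -/
def CopsWin {V : Type} (G : SimpleGraph V) (passive : Bool) (k : ℕ) : Prop :=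
  ∃ σ : List V → Fin k → V,
    (∀ (h : List V) (r : V) (i : Fin k), Move G passive (σ h i) (σ (r :: h) i)) ∧
    ∀ ρ : ℕ → V, (∀ t, Move G passive (ρ t) (ρ (t + 1))) →
      ∃ (t : ℕ) (i : Fin k), σ (hist ρ t) i = ρ t ∨ σ (hist ρ (t + 1)) i = ρ t

/-- The least number of cops with a winning strategy: the cop number `c` for `passive = true` and
the fully active cop number `c'` for `passive = false`. -/
noncomputable def copNum {V : Type} (G : SimpleGraph V) (passive : Bool) : ℕ :=
  sInf {k : ℕ | CopsWin G passive k}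

def G0 : SimpleGraph (Fin 19) where
  Adj a b := adjb a b = true
  symm := ⟨by decide +kernel⟩
  loopless := ⟨by decide +kernel⟩

instance : DecidableRel G0.Adj := fun a b => inferInstanceAs (Decidable (adjb a b = true))

theorem cop_spec (a b r : Fin 19) :
    stA a b r < 19 ∧ stB a b r < 19 ∧ adjb a (stA a b r) = true ∧ adjb b (stB a b r) = true ∧
    (rk a b r = 15 ∨ r.val = a ∨ r.val = b ∨ r.val = stA a b r ∨ r.val = stB a b r ∨
      ∀ s : Fin 19, adjb r s = true → rk (stA a b r) (stB a b r) s < rk a b r) := by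
  have h := allN_spec (allN_spec (allN_spec cop_ok a a.2) b b.2) r r.2
  unfold chkCop at h
  simp only [Bool.and_eq_true, Bool.or_eq_true, decide_eq_true_eq, beq_iff_eq] at h
  obtain ⟨⟨⟨⟨h1, h2⟩, h3⟩, h4⟩, h5⟩ := h
  refine ⟨h1, h2, h3, h4, ?_⟩
  rcases h5 with ((((h | h) | h) | h) | h) | h
  · exact Or.inl h
  · exact Or.inr (Or.inl h)
  · exact Or.inr (Or.inr (Or.inl h))
  · exact Or.inr (Or.inr (Or.inr (Or.inl h)))
  · exact Or.inr (Or.inr (Or.inr (Or.inr (Or.inl h))))
  · refine Or.inr (Or.inr (Or.inr (Or.inr (Or.inr fun s hs => ?_))))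
    have := allN_spec h s s.2
    simpa [hs] using this

def pos : List (Fin 19) → Fin 19 × Fin 19
  | [] => (0, 16)
  | r :: h => (⟨stA (pos h).1 (pos h).2 r, (cop_spec _ _ _).1⟩,
      ⟨stB (pos h).1 (pos h).2 r, (cop_spec _ _ _).2.1⟩)

theorem active_win : CopsWin G0 false 2 := by
  refine ⟨fun h => ![(pos h).1, (pos h).2], fun h r i => ?_, fun ρ hρ => ?_⟩
  · fin_cases i
    · exact Or.inl (cop_spec _ _ r).2.2.1
    · exact Or.inl (cop_spec _ _ r).2.2.2.1
  · by_contra hcon
    push Not at hcon
    have key : ∀ t, rk (pos (hist ρ t)).1 (pos (hist ρ t)).2 (ρ t) + t < 15 := by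
      intro t
      induction t with
      | zero => exact of_decide_eq_true (allN_spec cop_start (ρ 0) (ρ 0).2)
      | succ t ih =>
        have a0 := hcon t 0
        have a1 := hcon t 1
        have hm : adjb (ρ t) (ρ (t + 1)) = true := by
          rcases hρ t with h | h
          · exact h
          · simp at h
        rcases (cop_spec (pos (hist ρ t)).1 (pos (hist ρ t)).2 (ρ t)).2.2.2.2 with
          h | h | h | h | h | h
        · omega
        · exact absurd (Fin.ext h.symm) a0.1
        · exact absurd (Fin.ext h.symm) a1.1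
        · exact absurd (Fin.ext h.symm) a0.2
        · exact absurd (Fin.ext h.symm) a1.2
        · have := h _ hm
          have e : rk (pos (hist ρ (t + 1))).1 (pos (hist ρ (t + 1))).2 (ρ (t + 1)) =
            rk (stA (pos (hist ρ t)).1 (pos (hist ρ t)).2 (ρ t))
              (stB (pos (hist ρ t)).1 (pos (hist ρ t)).2 (ρ t)) (ρ (t + 1)) := rfl
          omega
    have := key 15
    omega

theorem move_iff (a c : Fin 19) (h : Move G0 true a c) : (adjb a c || a.val == c.val) = true := by
  rcases h with h | h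
  · have : adjb a c = true := h
    simp [this]
  · simp [h.2]

theorem evade (A B : List (Fin 19) → Fin 19) (hA : ∀ h r, Move G0 true (A h) (A (r :: h)))
    (hB : ∀ h r, Move G0 true (B h) (B (r :: h))) :
    ∃ ρ : ℕ → Fin 19, (∀ t, Move G0 true (ρ t) (ρ (t + 1))) ∧ ∀ t,
      A (hist ρ t) ≠ ρ t ∧ B (hist ρ t) ≠ ρ t ∧ A (hist ρ (t + 1)) ≠ ρ t ∧
        B (hist ρ (t + 1)) ≠ ρ t := by
  have h0 : ∃ r : Fin 19, sS (A []) (B []) r = true := by
    have := allN_spec (allN_spec rob_start (A []) (A []).2) (B []) (B []).2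
    obtain ⟨r, hr, h⟩ := List.any_eq_true.mp this
    exact ⟨⟨r, List.mem_range.mp hr⟩, h⟩
  have hstep : ∀ (h : List (Fin 19)) (r : Fin 19), ∃ s : Fin 19, sS (A h) (B h) r = true →
      (A h ≠ r ∧ B h ≠ r ∧ A (r :: h) ≠ r ∧ B (r :: h) ≠ r) ∧ Move G0 true r s ∧
        sS (A (r :: h)) (B (r :: h)) s = true := by
    intro h r
    by_cases hs : sS (A h) (B h) r = true
    · have a1 := allN_spec (allN_spec (allN_spec rob_safe (A h) (A h).2) (B h) (B h).2) r r.2
      have a2 := allN_spec (allN_spec rob_cop (A h) (A h).2) (A (r :: h)) (A (r :: h)).2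
      rw [move_iff _ _ (hA h r), Bool.not_true, Bool.false_or] at a2
      have a3 := allN_spec (allN_spec a2 (B h) (B h).2) (B (r :: h)) (B (r :: h)).2
      rw [move_iff _ _ (hB h r), Bool.not_true, Bool.false_or] at a3
      have a4 := allN_spec a3 r r.2
      rw [hs] at a1 a4
      have a5 := allN_spec (allN_spec (allN_spec rob_move (A (r :: h)) (A (r :: h)).2)
        (B (r :: h)) (B (r :: h)).2) r r.2
      have a6 : sR (A (r :: h)) (B (r :: h)) r = true := by simpa using a4
      rw [a6] at a5
      simp only [Bool.not_true, Bool.false_or, Bool.and_eq_true, bne_iff_ne, ne_eq,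
        List.any_eq_true, List.mem_range, Bool.or_eq_true, beq_iff_eq] at a1 a5
      obtain ⟨⟨b1, b2⟩, s, hs19, b3, b4⟩ := a5
      refine ⟨⟨s, hs19⟩, fun _ => ⟨⟨fun e => a1.1 (by rw [e]), fun e => a1.2 (by rw [e]),
        fun e => b1 (by rw [e]), fun e => b2 (by rw [e])⟩, ?_, b4⟩⟩
      rcases b3 with b | b
      · exact Or.inl b
      · exact Or.inr ⟨rfl, Fin.ext b⟩
    · exact ⟨r, fun h => absurd h hs⟩
  choose f hf using hstep
  obtain ⟨r0, hr0⟩ := h0
  let st : ℕ → List (Fin 19) × Fin 19 := fun t =>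
    Nat.rec ([], r0) (fun _ p => (p.2 :: p.1, f p.1 p.2)) t
  have hh : ∀ t, hist (fun t => (st t).2) t = (st t).1 := by
    intro t
    induction t with
    | zero => rfl
    | succ t ih => rw [hist, ih]
  have hinv : ∀ t, sS (A (st t).1) (B (st t).1) (st t).2 = true := by
    intro t
    induction t with
    | zero => exact hr0
    | succ t ih => exact (hf _ _ ih).2.2
  refine ⟨fun t => (st t).2, fun t => (hf _ _ (hinv t)).2.1, fun t => ?_⟩
  rw [hh, hh]
  exact (hf _ _ (hinv t)).1

theorem passive_lose (k : ℕ) (hk : k ≤ 2) : ¬ CopsWin G0 true k := by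
  rintro ⟨σ, h1, h2⟩
  have hm : ∀ j : ℕ, ∀ h r, Move G0 true (if hj : j < k then σ h ⟨j, hj⟩ else 0)
      (if hj : j < k then σ (r :: h) ⟨j, hj⟩ else 0) := by
    intro j h r
    split_ifs with hj
    · exact h1 h r _
    · exact Or.inr ⟨rfl, rfl⟩
  obtain ⟨ρ, hρ, hs⟩ := evade (fun h => if hj : 0 < k then σ h ⟨0, hj⟩ else 0)
    (fun h => if hj : 1 < k then σ h ⟨1, hj⟩ else 0) (hm 0) (hm 1)
  obtain ⟨t, ⟨i, hi⟩, h⟩ := h2 ρ hρ
  obtain ⟨a, b, c, d⟩ := hs t
  have : i = 0 ∨ i = 1 := by omega
  rcases this with rfl | rfl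
  · simp only [dif_pos hi] at a c
    exact h.elim a c
  · simp only [dif_pos hi] at b d
    exact h.elim b d

theorem passive_win : CopsWin G0 true 19 :=
  ⟨fun _ i => i, fun _ _ _ => Or.inr ⟨rfl, rfl⟩, fun ρ _ => ⟨0, ρ 0, Or.inl rfl⟩⟩

theorem result : ∃ (n : ℕ) (G : SimpleGraph (Fin n)),
    G.Connected ∧ G.IsBipartite ∧ copNum G false < copNum G true := by
  refine ⟨19, G0, by decide +kernel, ⟨SimpleGraph.Coloring.mk
    (fun v => if v.val < 9 then 0 else 1) ?_⟩, ?_⟩
  · intro v w h
    revert v w
    decide +kernel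
  · have h1 : copNum G0 false ≤ 2 := Nat.sInf_le active_win
    have h2 : CopsWin G0 true (copNum G0 true) :=
      Nat.sInf_mem (s := {k : ℕ | CopsWin G0 true k}) ⟨19, passive_win⟩
    by_contra h
    exact passive_lose _ (by omega) h2

end Pool.Agent.Results.MP_1e2692_co.Counter
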